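import Pool.Agent.Helper73_CrossIndex.Connected

/-!
# For every non-trivial finite group `G` and all `1 ≤ m < n` there is a finite free connected
`G`-simplicial complex with mapping index `m` whose face poset has cross-index `n`.
-/

universe u

namespace Pool.Agent.Results.MP_848d58_co.AllTriples

open Pool.Agent.Helper73_CrossIndex

theorem result (G : Type u) [Group G] [Fintype G] [Nontrivial G] (m n : ℕ) (hm : 0 < m)
    (hmn : m < n) :
    ∃ X : GComplex G, X.IsFree ∧ ConnectedSpace X.Realization ∧
      IsMappingIndex G X.Realization m ∧ IsCrossIndex G X.FacePoset n := by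
  obtain ⟨g, hg⟩ := exists_ne (1 : G)
  obtain ⟨q, hq⟩ := exists_q n g hg
  refine ⟨KC q m n g, KC_isFree q m n g, KC_connected q m n hm g, ⟨KC_to_E q m n hm g, ?_⟩,
    ⟨Xind_le hmn.le (hm.trans hmn) g, ?_⟩⟩
  · rintro k ⟨f, hf, hfe⟩
    by_contra hlt
    push Not at hlt
    obtain ⟨i, hi, hie⟩ := E_to_KC q m n g
    exact no_equivariant_map_lt hlt (fun x => f (i x)) (hf.comp hi) fun z x => by rw [hie, hfe]
  · rintro k ⟨f, hf, hfe⟩
    by_contra hlt
    push Not at hlt
    exact hq m k hlt f hf hfe

end Pool.Agent.Results.MP_848d58_co.AllTriples
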